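import Pool.Agent.Lib.MP_688fd0_co.TE.Iface3

/-!
# Theorem E: modules SUML and PWC
-/

namespace Pool.Agent.Lib.MP_688fd0_co.TE.H19

open Pool.Agent.Lib.MP_688fd0_co.TE

universe u v

section

variable {S : Type u} [Fintype S]

theorem sumL_append (m n : ℕ) (F : List S → ℝ) :
    sumL (m + n) F = sumL m (fun l => sumL n (fun l' => F (l ++ l'))) := by
  induction m generalizing F with
  | zero => simp [sumL]
  | succ m ih =>
    rw [Nat.succ_add]
    change ∑ s, sumL (m + n) (fun l => F (s :: l)) = ∑ s, sumL m _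
    refine Finset.sum_congr rfl fun s _ => ?_
    rw [ih]
    rfl

theorem sumL_mono (n : ℕ) (F H : List S → ℝ) (h : ∀ l, l.length = n → F l ≤ H l) :
    sumL n F ≤ sumL n H := by
  induction n generalizing F H with
  | zero => exact h [] rfl
  | succ n ih =>
    refine Finset.sum_le_sum fun s _ => ih _ _ fun l hl => h _ ?_
    rw [List.length_cons, hl]

theorem sumL_congr (n : ℕ) (F H : List S → ℝ) (h : ∀ l, l.length = n → F l = H l) :
    sumL n F = sumL n H :=
  le_antisymm (sumL_mono n F H fun l hl => (h l hl).le) (sumL_mono n H F fun l hl => (h l hl).ge)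

theorem sumL_add (n : ℕ) (F H : List S → ℝ) :
    sumL n (fun l => F l + H l) = sumL n F + sumL n H := by
  induction n generalizing F H with
  | zero => rfl
  | succ n ih =>
    change ∑ s, sumL n _ = ∑ s, sumL n _ + ∑ s, sumL n _
    rw [← Finset.sum_add_distrib]
    exact Finset.sum_congr rfl fun s _ => ih _ _

theorem sumL_smul (n : ℕ) (F : List S → ℝ) (c : ℝ) :
    sumL n (fun l => c * F l) = c * sumL n F := by
  induction n generalizing F with
  | zero => rfl
  | succ n ih =>
    change ∑ s, sumL n _ = c * ∑ s, sumL n _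
    rw [Finset.mul_sum]
    exact Finset.sum_congr rfl fun s _ => ih _

theorem sumL_nonneg (n : ℕ) (F : List S → ℝ) (h : ∀ l, l.length = n → 0 ≤ F l) :
    0 ≤ sumL n F := by
  induction n generalizing F with
  | zero => exact h [] rfl
  | succ n ih =>
    refine Finset.sum_nonneg fun s _ => ih _ fun l hl => h _ ?_
    rw [List.length_cons, hl]

theorem sumL_ofFn (n : ℕ) (F : List S → ℝ) :
    sumL n F = ∑ z : Fin n → S, F (List.ofFn z) := by
  induction n generalizing F with
  | zero => simp [sumL]
  | succ n ih =>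
    change ∑ s, sumL n _ = _
    rw [← (Fin.consEquiv (fun _ : Fin (n + 1) => S)).sum_comp, Fintype.sum_prod_type]
    refine Finset.sum_congr rfl fun s _ => ?_
    rw [ih]
    refine Finset.sum_congr rfl fun z _ => ?_
    rw [List.ofFn_succ]
    simp [Fin.consEquiv]

theorem sumL_sum {κ : Type v} [Fintype κ] (n : ℕ) (F : κ → List S → ℝ) :
    sumL n (fun l => ∑ i, F i l) = ∑ i, sumL n (F i) := by
  induction n generalizing F with
  | zero => rfl
  | succ n ih =>
    change ∑ s, sumL n (fun l => ∑ i, F i (s :: l)) = ∑ i, ∑ s, sumL n _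
    rw [Finset.sum_comm]
    exact Finset.sum_congr rfl fun s _ => ih _

end

/-- SUML: calculus of `sumL`. -/
theorem suml : SUML_S.{u, v} := by
  intro S _
  exact ⟨sumL_append, sumL_mono, sumL_add, sumL_smul, sumL_nonneg, sumL_ofFn,
    fun κ _ n F => sumL_sum n F, sumL_congr⟩

/-! ### PWC -/

section

variable {V : Type u} {Val : Type v} [Fintype V] [Fintype Val] {a : ℕ} (M : LM V Val a)

theorem pw_append (l l' : List (V × Val)) (s : V × Val) (j : ℕ) (x y : V) :
    M.pw j x (l ++ s :: l') y =
      M.pw j x l s.1 * M.kap (j + l.length) s.1 s.2 *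
        M.pw (j + l.length + 1) (M.ex s.1 s.2) l' y := by
  induction l generalizing j x with
  | nil => simp [LM.pw]
  | cons r l ih =>
    simp only [List.cons_append, LM.pw, List.length_cons]
    rw [ih]
    rw [show j + (l.length + 1) = j + 1 + l.length by ring]
    ring

theorem xw_append [DecidableEq V] (ω : Fld a V Val) (l l' : List (V × Val)) (j : ℕ) :
    M.xw ω j (l ++ l') = M.xw ω j l * M.xw ω (j + l.length) l' := by
  induction l generalizing j with
  | nil => simp [LM.xw]
  | cons r l ih =>
    simp only [List.cons_append, LM.xw, List.length_cons]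
    rw [ih]
    rw [show j + (l.length + 1) = j + 1 + l.length by ring]
    ring

theorem pw_nonneg (l : List (V × Val)) (j : ℕ) (x y : V) : 0 ≤ M.pw j x l y := by
  induction l generalizing j x with
  | nil => exact M.hC0 _ _ _
  | cons r l ih =>
    simp only [LM.pw]
    exact mul_nonneg (mul_nonneg (M.hC0 _ _ _) (M.hk0 _ _ _)) (ih _ _)

theorem xw_nonneg [DecidableEq V] (ω : Fld a V Val) (l : List (V × Val)) (j : ℕ) :
    0 ≤ M.xw ω j l := by
  induction l generalizing j with
  | nil => simp [LM.xw]
  | cons r l ih =>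
    simp only [LM.xw]
    exact mul_nonneg (div_nonneg (ind_nonneg _) (M.hP0 _ _)) (ih _)

theorem fk_nonneg (j r : ℕ) (x y : V) : 0 ≤ M.fk j r x y :=
  sumL_nonneg _ _ fun _ _ => pw_nonneg M _ _ _ _

theorem fk_split (j r r' : ℕ) (x y : V) : M.fk j (r + 1 + r') x y =
    ∑ s : V × Val, M.fk j r x s.1 * M.kap (j + r) s.1 s.2 *
      M.fk (j + r + 1) r' (M.ex s.1 s.2) y := by
  unfold LM.fk
  rw [add_assoc, sumL_append]
  have h1 : ∀ l : List (V × Val), l.length = r →
      sumL (1 + r') (fun l' => M.pw j x (l ++ l') y) =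
      ∑ s : V × Val, M.pw j x l s.1 * (M.kap (j + r) s.1 s.2 *
        sumL r' (fun l' => M.pw (j + r + 1) (M.ex s.1 s.2) l' y)) := by
    intro l hl
    rw [add_comm 1 r']
    change ∑ s, sumL r' (fun l' => M.pw j x (l ++ s :: l') y) = _
    refine Finset.sum_congr rfl fun s _ => ?_
    rw [← mul_assoc, ← sumL_smul]
    apply sumL_congr
    intro l' _
    rw [pw_append, hl]
  rw [sumL_congr _ _ _ h1, sumL_sum]
  refine Finset.sum_congr rfl fun s _ => ?_
  have h2 : ∀ l : List (V × Val), l.length = r → M.pw j x l s.1 * (M.kap (j + r) s.1 s.2 *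
      sumL r' (fun l' => M.pw (j + r + 1) (M.ex s.1 s.2) l' y)) =
      (M.kap (j + r) s.1 s.2 *
      sumL r' (fun l' => M.pw (j + r + 1) (M.ex s.1 s.2) l' y)) * M.pw j x l s.1 :=
    fun l _ => mul_comm _ _
  rw [sumL_congr _ _ _ h2, sumL_smul]
  ring

end

/-- PWC: concatenation of paths. -/
theorem pwc : PWC_S.{u, v} := by
  intro V Val _ _ _ a M
  exact ⟨fun l l' s j x y => pw_append M l l' s j x y, fun ω l l' j => xw_append M ω l l' j,
    fun l j x y => pw_nonneg M l j x y, fun ω l j => xw_nonneg M ω l j,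
    fun j r x y => fk_nonneg M j r x y, fun j r r' x y => fk_split M j r r' x y⟩

end Pool.Agent.Lib.MP_688fd0_co.TE.H19
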