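import Pool.Agent.Lib.MP_688fd0_co.TE.Iface3

/-!
# Theorem E: modules TELE and ADJ
-/

namespace Pool.Agent.Lib.MP_688fd0_co.TE.H19

open Pool.Agent.Lib.MP_688fd0_co.TE

universe u v

section

variable {G : Type u} [Fintype G] [DecidableEq G]

theorem Kn_add (c : ℕ → Matrix G G ℝ) (i m n : ℕ) :
    Kn c i (m + n) = Kn c i m * Kn c (i + m) n := by
  induction n with
  | zero => simp [Kn]
  | succ n ih =>
    rw [← add_assoc]
    simp only [Kn]
    rw [ih, Matrix.mul_assoc, add_assoc i m n]

theorem Kn_one (c : ℕ → Matrix G G ℝ) (i : ℕ) : Kn c i 1 = c (i + 1) := by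
  simp [Kn]

/-- First step. -/
theorem Kn_first (c : ℕ → Matrix G G ℝ) (j r : ℕ) (v y : G) :
    Kn c j (1 + r) v y = ∑ v', c (j + 1) v v' * Kn c (j + 1) r v' y := by
  rw [Kn_add, Kn_one, Matrix.mul_apply]

theorem Kn_last (c : ℕ → Matrix G G ℝ) (j : ℕ) (x v' : G) :
    Kn c 0 (j + 1) x v' = ∑ v, Kn c 0 j x v * c (j + 1) v v' := by
  change (Kn c 0 j * c (0 + j + 1)) x v' = _
  rw [Matrix.mul_apply, zero_add]

end

/-- TELE: exact telescoping along a link. -/
theorem tele : TELE_S.{u} := by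
  intro G _ _ cc n x y F hK
  set K := Kn cc 0 n x y with hKd
  set A : ℕ → ℝ := fun j => ∑ v, Kn cc 0 j x v * Kn cc j (n - j) v y * F j v / K with hA
  have h1 : ∀ j ∈ Finset.range n, ∑ v, ∑ v',
      Kn cc 0 j x v * cc (j + 1) v v' * Kn cc (j + 1) (n - 1 - j) v' y / K *
        (F j v - F (j + 1) v') = A j - A (j + 1) := by
    intro j hj
    have hj' := Finset.mem_range.1 hj
    have e1 : A j = ∑ v, ∑ v', Kn cc 0 j x v * cc (j + 1) v v' *
        Kn cc (j + 1) (n - 1 - j) v' y / K * F j v := by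
      rw [hA]
      refine Finset.sum_congr rfl fun v _ => ?_
      rw [show n - j = 1 + (n - 1 - j) by omega, Kn_first, Finset.mul_sum, Finset.sum_mul,
        Finset.sum_div]
      refine Finset.sum_congr rfl fun v' _ => ?_
      ring
    have e2 : A (j + 1) = ∑ v, ∑ v', Kn cc 0 j x v * cc (j + 1) v v' *
        Kn cc (j + 1) (n - 1 - j) v' y / K * F (j + 1) v' := by
      rw [hA, Finset.sum_comm]
      refine Finset.sum_congr rfl fun v' _ => ?_
      rw [show n - (j + 1) = n - 1 - j by omega, Kn_last, Finset.sum_mul, Finset.sum_mul,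
        Finset.sum_div]
      refine Finset.sum_congr rfl fun v _ => ?_
      ring
    rw [e1, e2, ← Finset.sum_sub_distrib]
    refine Finset.sum_congr rfl fun v _ => ?_
    rw [← Finset.sum_sub_distrib]
    refine Finset.sum_congr rfl fun v' _ => ?_
    ring
  rw [Finset.sum_congr rfl h1, Finset.sum_range_sub']
  have e0 : A 0 = F 0 x := by
    rw [hA]
    change ∑ v, (1 : Matrix G G ℝ) x v * Kn cc 0 (n - 0) v y * F 0 v / K = _
    rw [Finset.sum_eq_single x]
    · rw [Matrix.one_apply_eq, Nat.sub_zero, one_mul, ← hKd, mul_div_assoc, mul_div_cancel₀]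
      exact hK
    · intro b _ hb
      rw [Matrix.one_apply_ne hb.symm]
      simp
    · intro h; exact absurd (Finset.mem_univ _) h
  have en : A n = F n y := by
    rw [hA]
    change ∑ v, Kn cc 0 n x v * Kn cc n (n - n) v y * F n v / K = _
    rw [Nat.sub_self]
    change ∑ v, Kn cc 0 n x v * (1 : Matrix G G ℝ) v y * F n v / K = _
    rw [Finset.sum_eq_single y]
    · rw [Matrix.one_apply_eq, mul_one, ← hKd, mul_div_assoc, mul_div_cancel₀]
      exact hK
    · intro b _ hb
      rw [Matrix.one_apply_ne hb]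
      simp
    · intro h; exact absurd (Finset.mem_univ _) h
  rw [e0, en]

section

variable {G : Type u} [Group G] [Fintype G] [DecidableEq G]

theorem UM_ne {S : Finset G} {x y : G} (h : UM S x y ≠ 0) : x⁻¹ * y ∈ S := by
  by_contra hn
  apply h
  unfold UM
  rw [ind_not hn, zero_div]

theorem WM_ne {B C : Finset G} {τ : Bool} {x y : G} (h : WM B C τ x y ≠ 0) :
    x⁻¹ * y ∈ Lt B C τ := by
  unfold WM at h
  unfold Lt
  cases τ
  · simp only [Bool.false_eq_true, if_false] at h ⊢
    exact UM_ne h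
  · simp only [if_true] at h ⊢
    rw [Finset.mem_union]
    by_contra hn
    push Not at hn
    apply h
    have h1 : UM B x y = 0 := by
      by_contra h1; exact hn.1 (UM_ne h1)
    have h2 : UM C x y = 0 := by
      by_contra h2; exact hn.2 (UM_ne h2)
    simp [h1, h2]

theorem B_sub_Lt {B C : Finset G} {τ : Bool} : B ⊆ Lt B C τ := by
  unfold Lt
  cases τ
  · simp
  · simp only [if_true]; exact Finset.subset_union_left

theorem cO_ne {B C : Finset G} {τ : Bool} {p : ℕ} {x y : G} (h : cO B C τ p x y ≠ 0) :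
    x⁻¹ * y ∈ Lt B C τ := by
  unfold cO at h
  split at h
  · exact WM_ne h
  · exact B_sub_Lt (UM_ne h)

theorem cc_ne {c : Ctx G} {τ par : Bool} {p : ℕ} {x y : G} (h : c.cc τ par p x y ≠ 0) :
    x⁻¹ * y ∈ Lt c.B c.C τ := by
  unfold Ctx.cc at h
  split at h
  · exact cO_ne h
  · exact cO_ne (p := p + 1) h

end

/-- ADJ: the steps of a link walk with positive probability are letters. -/
theorem adj : ADJ_S.{u} := by
  intro G _ _ _ c τ par x y z hz
  unfold Ctx.WL at hz
  have h1 : ind (z 0 = x ∧ z (Fin.last _) = y) ≠ 0 := by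
    intro h; apply hz; rw [h]; simp
  have h2 : z 0 = x ∧ z (Fin.last _) = y := by
    by_contra h; exact h1 (ind_not h)
  have h3 : ∏ i : Fin (c.len par), c.cc τ par (i + 1) (z i.castSucc) (z i.succ) ≠ 0 := by
    intro h; apply hz; rw [h]; simp
  have h4 : ∀ i : Fin (c.len par), c.cc τ par (i + 1) (z i.castSucc) (z i.succ) ≠ 0 :=
    fun i => (Finset.prod_ne_zero_iff.1 h3) i (Finset.mem_univ _)
  refine ⟨h2.1, h2.2, fun i => cc_ne (h4 i), fun i hi => ?_⟩
  have := h4 i
  rw [hi] at this
  exact UM_ne this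

end Pool.Agent.Lib.MP_688fd0_co.TE.H19
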